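import Pool.Agent.H24.Bfr1

namespace Pool.Agent.Results.MP_df6457_lc.Infinite

variable {A : Type}

def FTR (L : Language A) : Prop :=
  (∀ w ∈ L, ∀ u, u <:+: w → u ∈ L) ∧ (∀ u ∈ L, ∀ v ∈ L, ∃ w, u ++ w ++ v ∈ L) ∧ L.IsRegular

def IsSub (M : Set (List A)) : Prop := [] ∈ M ∧ ∀ u ∈ M, ∀ v ∈ M, u ++ v ∈ M

def Gen (M : Set (List A)) : Set (List A) :=
  {w | w ∈ M ∧ w ≠ [] ∧ ¬ ∃ u ∈ M, ∃ v ∈ M, u ≠ [] ∧ v ≠ [] ∧ w = u ++ v}

def Free (M : Set (List A)) : Prop :=
  IsSub M ∧ ∀ w ∈ M, ∃! l : List (List A), (∀ x ∈ l, x ∈ Gen M) ∧ l.flatten = w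

def MaxFree (L : Language A) (M : Set (List A)) : Prop :=
  Free M ∧ (∀ w ∈ M, w ∈ L) ∧ ∀ N, Free N → M ⊆ N → (∀ w ∈ N, w ∈ L) → N = M

def Stable (M : Set (List A)) : Prop :=
  ∀ u v w, u ∈ M → v ∈ M → u ++ w ∈ M → w ++ v ∈ M → w ∈ M

theorem flat_mem {M : Set (List A)} (h : IsSub M) (l : List (List A)) (k : ∀ x ∈ l, x ∈ Gen M) :
    l.flatten ∈ M := by
  induction l with
  | nil => exact h.1
  | cons x l ih => exact h.2 _ (k x (.head _)).1 _ (ih fun y hy => k y (.tail _ hy))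

theorem free_iff {M : Set (List A)} : Free M ↔ IsSub M ∧ Stable M := by
  refine and_congr_right fun h => ⟨fun k u v w a b c d => ?_, fun k w hw => ?_⟩
  · obtain ⟨l1, ⟨a1, rfl⟩, -⟩ := k u a
    obtain ⟨l4, ⟨b1, rfl⟩, -⟩ := k v b
    obtain ⟨l3, ⟨c1, c2⟩, -⟩ := k _ c
    obtain ⟨l2, ⟨d1, d2⟩, -⟩ := k _ d
    have := (k _ (h.2 _ a _ d)).unique (y₁ := l1 ++ l2) (y₂ := l3 ++ l4)
      ⟨List.forall_mem_append.2 ⟨a1, d1⟩, by simp [d2]⟩
      ⟨List.forall_mem_append.2 ⟨c1, b1⟩, by simp [c2]⟩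
    rcases List.append_eq_append_iff.1 this with ⟨x, rfl, -⟩ | ⟨x, rfl, -⟩
    · rw [List.flatten_append, List.append_cancel_left_eq] at c2
      exact c2 ▸ flat_mem h x (List.forall_mem_append.1 c1).2
    · have := congrArg List.length c2
      simp only [List.flatten_append, List.length_append] at this
      rw [List.length_eq_zero_iff.1 (by omega : w.length = 0)]
      exact h.1
  · refine existsUnique_of_exists_of_unique ?_ ?_
    · induction e : w.length using Nat.strong_induction_on generalizing w with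
      | _ n ih =>
        by_cases e1 : w = []
        · exact ⟨[], by simp, e1.symm⟩
        by_cases e2 : w ∈ Gen M
        · exact ⟨[w], by simpa using e2, by simp⟩
        obtain ⟨u, a, v, b, c, d, rfl⟩ := not_not.1 fun e3 => e2 ⟨hw, e1, e3⟩
        have := List.length_pos_iff.2 c
        have := List.length_pos_iff.2 d
        rw [List.length_append] at e
        obtain ⟨l, a1, rfl⟩ := ih _ (by omega) u a rfl
        obtain ⟨l', b1, rfl⟩ := ih _ (by omega) v b rfl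
        exact ⟨l ++ l', List.forall_mem_append.2 ⟨a1, b1⟩, by simp⟩
    · rintro l l' ⟨a, rfl⟩ ⟨b, e⟩
      clear hw
      induction l generalizing l' with
      | nil =>
        rcases l' with _ | ⟨y, l'⟩
        · rfl
        · exact ((b y (.head _)).2.1 (List.append_eq_nil_iff.1 e).1).elim
      | cons x l ih =>
        rcases l' with _ | ⟨y, l'⟩
        · exact ((a x (.head _)).2.1 (List.append_eq_nil_iff.1 e.symm).1).elim
        have a1 := flat_mem h l fun z hz => a z (.tail _ hz)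
        have b1 := flat_mem h l' fun z hz => b z (.tail _ hz)
        have key : ∀ x z s, x ∈ Gen M → x ++ z ∈ Gen M → s ∈ M → z ++ s ∈ M → z = [] :=
          fun x z s a b c d => not_not.1 fun e =>
            b.2.2 ⟨x, a.1, z, k x s z a.1 c b.1 d, a.2.1, e, rfl⟩
        have : x = y ∧ l'.flatten = l.flatten := by
          rcases List.append_eq_append_iff.1 e with ⟨z, rfl, e'⟩ | ⟨z, rfl, e'⟩
          · obtain rfl := key y z _ (b _ (.head _)) (a _ (.head _)) a1 (e' ▸ b1)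
            exact ⟨by simp, e'⟩
          · obtain rfl := key x z _ (a _ (.head _)) (b _ (.head _)) b1 (e' ▸ a1)
            exact ⟨by simp, e'.symm⟩
        rw [this.1, ih l' (fun z hz => a z (.tail _ hz)) (fun z hz => b z (.tail _ hz)) this.2]

def st (q : Fin 4) (x : Fin 3) : Fin 4 :=
  ![![0, 0, 0], ![0, 2, 0], ![3, 2, 1], ![3, 2, 2]] q x

def ev (q : Fin 4) (w : List (Fin 3)) : Fin 4 := w.foldl st q

theorem ev_append (q u v) : ev q (u ++ v) = ev (ev q u) v := List.foldl_append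

theorem ev_mono (w) : ∀ p q, p ≤ q → ev p w ≤ ev q w := by
  induction w with
  | nil => exact fun _ _ h => h
  | cons x w ih => exact fun p q h => ih _ _ (by revert p q x; decide)

theorem ev_zero (w) : ev 0 w = 0 := by
  induction w with
  | nil => rfl
  | cons x w ih => rwa [show ev 0 (x :: w) = ev (st 0 x) w from rfl, show st 0 x = 0 by revert x; decide]

theorem ev_pre {q u v} (h : ev q (u ++ v) ≠ 0) : ev q u ≠ 0 := fun e => h (by rw [ev_append, e, ev_zero])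

theorem ev_top {q w} (h : ev q w ≠ 0) : ev 3 w ≠ 0 := fun e =>
  h (le_antisymm (e ▸ ev_mono w _ _ (Fin.le_last q)) (Fin.zero_le _))

def L0 : Language (Fin 3) := {w | ev 3 w ≠ 0}

def MP (p : ℕ) : Set (List (Fin 3)) := {w | 2 ≤ ev 2 w ∧ p ∣ w.length}

theorem rep (x : Fin 3) (q : Fin 4) (h : st q x = q) (n : ℕ) : ev q (List.replicate n x) = q := by
  induction n with
  | zero => rfl
  | succ n ih => rwa [List.replicate_succ, show ev q (x :: _) = ev (st q x) _ from rfl, h]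

theorem MP_ok {p : ℕ} (hp : 2 ≤ p) : IsSub (MP p) ∧ Stable (MP p) ∧ ∀ w ∈ MP p, w ∈ L0 := by
  refine ⟨⟨⟨le_rfl, by simp⟩, fun u a v b => ⟨?_, by simpa using a.2.add b.2⟩⟩,
    fun u v w a b c d => ?_, fun w h => ev_top (q := 2) fun e => by simpa [e] using h.1⟩
  · rw [ev_append]
    exact b.1.trans (ev_mono v _ _ a.1)
  · have e : p ∣ w.length := (Nat.dvd_add_right a.2).1 (by simpa using c.2)
    refine ⟨?_, e⟩
    rcases w with _ | ⟨x, _ | ⟨y, w⟩⟩
    · rfl
    · exact absurd (Nat.le_of_dvd one_pos e) (by omega)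
    · have h1 : ev 2 [x, y] ≠ 0 := ev_pre (v := w ++ v) fun e => by
        have := d.1
        rw [show x :: y :: w ++ v = [x, y] ++ (w ++ v) from rfl, e] at this
        simp at this
      have h2 := c.1
      rw [ev_append] at h2
      have h3 := (by decide : ∀ x y, ev 2 [x, y] ≠ 0 → ev 2 [x, y] = ev 3 [x, y]) x y h1
      rw [show x :: y :: w = [x, y] ++ w from rfl, ev_append, h3, ← ev_append]
      exact h2.trans (ev_mono _ _ _ (Fin.le_last _))

theorem result : ∃ (A : Type) (_ : Finite A) (L : Language A), FTR L ∧ {M | MaxFree L M}.Infinite := by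
  refine ⟨Fin 3, inferInstance, L0, ⟨?_, fun u a v b => ⟨[1, 0], ?_⟩, ?_⟩, ?_⟩
  · rintro _ h u ⟨x, y, rfl⟩
    have := ev_pre h
    rw [ev_append] at this
    exact ev_top this
  · change ev 3 _ ≠ 0
    rwa [ev_append, ev_append, (by decide : ∀ q, q ≠ 0 → ev q [1, 0] = 3) _ a]
  · refine Pool.Agent.H24.Bfr.reg_of_fin _ (ev 3) fun x y e z h => ?_
    change ev 3 _ ≠ 0 at h ⊢
    rwa [ev_append, ← e, ← ev_append]
  have : ∀ n : ℕ, ∃ M, MP (Nat.fermatNumber n) ⊆ M ∧ MaxFree L0 M := fun n => by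
    obtain ⟨M, a, b⟩ := zorn_subset_nonempty {M | IsSub M ∧ Stable M ∧ ∀ w ∈ M, w ∈ L0}
      (fun c hc h ⟨M0, h0⟩ => ⟨⋃₀ c, ⟨⟨⟨M0, h0, (hc h0).1.1⟩, by
        rintro u ⟨M, a, b⟩ v ⟨N, d, e⟩
        obtain ⟨P, f, g, i⟩ := h.directedOn M a N d
        exact ⟨P, f, (hc f).1.2 u (g b) v (i e)⟩⟩, by
        rintro u v w ⟨M1, a1, b1⟩ ⟨M2, a2, b2⟩ ⟨M3, a3, b3⟩ ⟨M4, a4, b4⟩
        obtain ⟨P, f, g, i⟩ := h.directedOn M1 a1 M2 a2
        obtain ⟨P', f', g', i'⟩ := h.directedOn M3 a3 M4 a4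
        obtain ⟨R, j, k, l⟩ := h.directedOn P f P' f'
        exact ⟨R, j, (hc j).2.1 u v w (k (g b1)) (k (i b2)) (l (g' b3)) (l (i' b4))⟩,
        fun w ⟨M, a, b⟩ => (hc a).2.2 w b⟩, fun s hs => Set.subset_sUnion_of_mem hs⟩)
      _ (MP_ok (Nat.two_lt_fermatNumber n).le)
    exact ⟨M, a, free_iff.2 ⟨b.1.1, b.1.2.1⟩, b.1.2.2, fun N h1 h2 h3 =>
      (b.eq_of_subset ⟨h1.1, (free_iff.1 h1).2, h3⟩ h2).symm⟩
  choose M h1 h2 using this
  refine Set.infinite_of_injective_forall_mem (f := M) (fun i j e => ?_) h2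
  by_contra ne
  obtain ⟨n, a, b⟩ : ∃ n, Nat.fermatNumber i ∣ n + 1 ∧ Nat.fermatNumber j ∣ n + 1 + 1 := by
    obtain ⟨k, a, b⟩ := Nat.chineseRemainder (Nat.coprime_fermatNumber_fermatNumber ne) 0
      (Nat.fermatNumber j - 1)
    have := Nat.two_lt_fermatNumber j
    have b' : Nat.fermatNumber j ∣ k + 1 := (Nat.modEq_zero_iff_dvd.1 ((b.add_right 1).trans
      (by rw [Nat.sub_add_cancel (by omega)]; exact Nat.modEq_zero_iff_dvd.2 dvd_rfl)))
    have := Nat.le_of_dvd (by omega) b'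
    exact ⟨k - 1, by rw [Nat.sub_add_cancel (by omega)]; exact Nat.modEq_zero_iff_dvd.1 a,
      by rwa [Nat.sub_add_cancel (by omega)]⟩
  have e1 : ev 2 (List.replicate (n + 1) 0) = 3 := rep 0 3 rfl n
  have s := free_iff.1 (h2 i).1
  have c := s.2 (List.replicate (n + 1) 0) (List.replicate (n + 1) 1) [2]
    (h1 i ⟨by rw [e1]; decide, by simpa using a⟩) (h1 i ⟨(rep 1 2 rfl _).ge, by simpa using a⟩)
    (e ▸ h1 j ⟨by rw [ev_append, e1]; decide, by simpa using b⟩)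
    (e ▸ h1 j ⟨(rep 1 2 rfl n).ge, by simpa using b⟩)
  exact (h2 i).2.1 _ (s.1.2 _ c _ (s.1.2 _ c _ c)) rfl

end Pool.Agent.Results.MP_df6457_lc.Infinite
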